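import Pool.Agent.R456.CL.Stm

/-!
# Project CL: St_Dich and St_Join
-/

set_option autoImplicit false

namespace Pool.Agent.R834.CL
open Pool.Agent.R456.CL

universe u

section
variable {A : Type u} [CStarAlgebra A]

theorem pj_mul {p : A} (h : PJ p) : p * p = p := h.isIdempotentElem
theorem pj_star {p : A} (h : PJ p) : star p = p := h.isSelfAdjoint

theorem le_symm {p q : A} (hp : PJ p) (hq : PJ q) (h : p * q = p) : q * p = p := by
  have h1 := congrArg star h
  rwa [star_mul, pj_star hp, pj_star hq] at h1

theorem orth_symm {p q : A} (hp : PJ p) (hq : PJ q) (h : p * q = 0) : q * p = 0 := by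
  have h1 := congrArg star h
  rwa [star_mul, pj_star hp, pj_star hq, star_zero] at h1

theorem pj_add {p q : A} (hp : PJ p) (hq : PJ q) (h : p * q = 0) : PJ (p + q) := by
  refine ⟨?_, ?_⟩
  · show (p + q) * (p + q) = p + q
    rw [add_mul, mul_add, mul_add, pj_mul hp, pj_mul hq, h, orth_symm hp hq h, add_zero, zero_add]
  · show star (p + q) = p + q
    rw [star_add, pj_star hp, pj_star hq]

theorem pj_sub {p q : A} (hp : PJ p) (hq : PJ q) (h : p * q = p) : PJ (q - p) := by
  refine ⟨?_, ?_⟩
  · show (q - p) * (q - p) = q - p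
    rw [sub_mul, mul_sub, mul_sub, pj_mul hp, pj_mul hq, h, le_symm hp hq h, sub_self, sub_zero]
  · show star (q - p) = q - p
    rw [star_sub, pj_star hp, pj_star hq]

theorem v_mul {v p : A} (hp : PJ p) (hv : star v * v = p) : v * p = v := by
  have h : star (v - v * p) * (v - v * p) = 0 := by
    have e : star (v - v * p) * (v - v * p) =
        star v * v - (star v * v) * p - star p * (star v * v) + star p * (star v * v) * p := by
      simp only [star_sub, star_mul]; noncomm_ring
    rw [e, hv, pj_star hp, pj_mul hp, pj_mul hp]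
    simp
  have h1 := CStarRing.star_mul_self_eq_zero_iff (v - v * p) |>.mp h
  exact (sub_eq_zero.mp h1).symm

theorem mul_vs {v p : A} (hp : PJ p) (hv : star v * v = p) : p * star v = star v := by
  have h1 := congrArg star (v_mul hp hv)
  rwa [star_mul, pj_star hp] at h1

theorem vs_q {v p q : A} (hp : PJ p) (hv : star v * v = p)
    (h : (v * star v) * q = v * star v) : star v * q = star v := by
  calc star v * q = (p * star v) * q := by rw [mul_vs hp hv]
    _ = star v * ((v * star v) * q) := by rw [← hv]; noncomm_ring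
    _ = star v * (v * star v) := by rw [h]
    _ = p * star v := by rw [← hv]; noncomm_ring
    _ = star v := mul_vs hp hv

theorem q_v {v p q : A} (hp : PJ p) (hq : PJ q) (hv : star v * v = p)
    (h : (v * star v) * q = v * star v) : q * v = v := by
  have h1 := congrArg star (vs_q hp hv h)
  rwa [star_mul, star_star, pj_star hq] at h1

theorem sub_trans' {p q r : A} (hp : PJ p) (hq : PJ q) (h1 : Sub p q) (h2 : Sub q r) :
    Sub p r := by
  obtain ⟨v, hv, hv'⟩ := h1
  obtain ⟨w, hw, hw'⟩ := h2
  have e1 : q * v = v := q_v hp hq hv hv'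
  have e2 : star w * r = star w := vs_q hq hw hw'
  refine ⟨w * v, ?_, ?_⟩
  · rw [star_mul]
    calc star v * star w * (w * v) = star v * ((star w * w) * v) := by noncomm_ring
      _ = p := by rw [hw, e1, hv]
  · rw [star_mul]
    calc w * v * (star v * star w) * r = w * v * star v * (star w * r) := by noncomm_ring
      _ = w * v * (star v * star w) := by rw [e2]; noncomm_ring

theorem sub_le' {p q r : A} (h1 : Sub p q) (h2 : Le q r) : Sub p r := by
  obtain ⟨v, hv, hv'⟩ := h1
  refine ⟨v, hv, ?_⟩
  have h2' : q * r = q := h2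
  calc v * star v * r = (v * star v * q) * r := by rw [hv']
    _ = v * star v * (q * r) := by noncomm_ring
    _ = v * star v := by rw [h2', hv']

theorem sub_of_le {p q : A} (hp : PJ p) (h : p * q = p) : Sub p q := by
  refine ⟨p, ?_, ?_⟩
  · rw [pj_star hp, pj_mul hp]
  · rw [pj_star hp, pj_mul hp, h]

theorem sub_of_eqv {p q : A} (hq : PJ q) (h : Eqv p q) : Sub p q := by
  obtain ⟨v, hv, hv'⟩ := h
  exact ⟨v, hv, by rw [hv', pj_mul hq]⟩

/-- Half of the argument. -/
theorem half (hLR : PLR A) {q r m : A} (hq : PJ q) (hr : PJ r) (hm : PJ m) (hqr : q * r = 0)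
    (hmu : m * (q + r) = m) :
    ∃ w a b : A, PJ a ∧ PJ b ∧ star w * w = a ∧ w * star w = b ∧ a * m = a ∧ b * r = b ∧
      (m - a) * q = m - a ∧ (r - b) * m = 0 ∧ ∀ t : A, t * m = 0 → t * r = t → t * b = 0 := by
  obtain ⟨w, a, b, ha, hb, hw, hw', hxa, hbx, h1, h2⟩ := hLR ((1 - q) * m)
  have hqq := pj_mul hq
  have hmm := pj_mul hm
  have hrq := orth_symm hq hr hqr
  have hu : PJ (q + r) := pj_add hq hr hqr
  have hum : (q + r) * m = m := le_symm hm hu hmu
  have huq : (q + r) * q = q := by rw [add_mul, hqq, hrq, add_zero]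
  have ham : a * m = a := by
    have e : (1 - q) * m * (1 - m) = 0 := by
      rw [mul_assoc, mul_sub, mul_one, hmm, sub_self, mul_zero]
    have := h1 _ e
    rw [mul_sub, mul_one] at this
    exact (sub_eq_zero.mp this).symm
  have hqb : q * b = 0 := by
    apply h2
    rw [← mul_assoc, mul_sub, mul_one, hqq, sub_self, zero_mul]
  have hbq : b * q = 0 := orth_symm hq hb hqb
  have hub : (q + r) * b = b := by
    have e : (1 - (q + r)) * ((1 - q) * m) = 0 := by
      calc (1 - (q + r)) * ((1 - q) * m) = m - q * m - (q + r) * m + ((q + r) * q) * m := by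
            noncomm_ring
        _ = 0 := by rw [hum, huq]; abel
    have := h2 _ e
    rw [sub_mul, one_mul] at this
    exact (sub_eq_zero.mp this).symm
  have hrb : r * b = b := by
    rw [add_mul, hqb, zero_add] at hub; exact hub
  have hbr : b * r = b := by
    have h3 := congrArg star hrb
    rwa [star_mul, pj_star hr, pj_star hb] at h3
  have hma : m * a = a := le_symm ha hm ham
  have hD : PJ (m - a) := pj_sub ha hm ham
  have hDq : (m - a) * q = m - a := by
    have e : (1 - q) * m * (m - a) = 0 := by
      rw [mul_sub, hxa, mul_assoc, hmm, sub_self]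
    have e2 : m * (m - a) = m - a := by rw [mul_sub, hmm, hma]
    rw [mul_assoc, e2, sub_mul, one_mul] at e
    exact le_symm' hq hD (sub_eq_zero.mp e).symm
  have hrm : (r - b) * m = 0 := by
    have e1 : b * m = (1 - q) * m := by
      calc b * m = b * ((1 - q) * m) + (b * q) * m := by noncomm_ring
        _ = (1 - q) * m := by rw [hbx, hbq, zero_mul, add_zero]
    have e2 : r * m = (1 - q) * m := by
      calc r * m = (q + r) * m - q * m := by noncomm_ring
        _ = (1 - q) * m := by rw [hum, sub_mul, one_mul]
    rw [sub_mul, e1, e2, sub_self]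
  refine ⟨w, a, b, ha, hb, hw, hw', ham, hbr, hDq, hrm, ?_⟩
  intro t ht1 ht2
  apply h2
  have htq : t * q = 0 := by
    rw [← ht2, mul_assoc, hrq, mul_zero]
  calc t * ((1 - q) * m) = t * m - (t * q) * m := by noncomm_ring
    _ = 0 := by rw [ht1, htq, zero_mul, sub_zero]
where
  le_symm' {p q : A} (hp : PJ p) (hq : PJ q) (h : p * q = q) : q * p = q := by
    have h1 := congrArg star h
    rwa [star_mul, pj_star hp, pj_star hq] at h1

theorem comb {w a b m r : A} (ha : PJ a) (hb : PJ b) (hm : PJ m) (hr : PJ r)
    (hw : star w * w = a) (hw' : w * star w = b) (ham : a * m = a) (hbr : b * r = b)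
    (hs : Sub (m - a) (r - b)) : Sub m r := by
  obtain ⟨z, hz, hz'⟩ := hs
  have hD : PJ (m - a) := pj_sub ha hm ham
  have hE : PJ (r - b) := pj_sub hb hr hbr
  have wa : w * a = w := v_mul ha hw
  have bw : b * w = w := by rw [← hw', mul_assoc, hw, wa]
  have wsb : star w * b = star w := by
    have h1 := congrArg star bw
    rwa [star_mul, pj_star hb] at h1
  have zD : z * (m - a) = z := v_mul hD hz
  have zsE : star z * (r - b) = star z := vs_q hD hz hz'
  have Ez : (r - b) * z = z := q_v hD hE hz hz'
  have Dzs : (m - a) * star z = star z := mul_vs hD hz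
  have bE : b * (r - b) = 0 := by rw [mul_sub, hbr, pj_mul hb, sub_self]
  have aD : a * (m - a) = 0 := by rw [mul_sub, ham, pj_mul ha, sub_self]
  have c1 : star w * z = 0 := by
    calc star w * z = (star w * b) * ((r - b) * z) := by rw [wsb, Ez]
      _ = star w * (b * (r - b)) * z := by noncomm_ring
      _ = 0 := by rw [bE, mul_zero, zero_mul]
  have c2 : star z * w = 0 := by
    have h1 := congrArg star c1
    rwa [star_mul, star_star, star_zero] at h1
  have c3 : w * star z = 0 := by
    calc w * star z = (w * a) * ((m - a) * star z) := by rw [wa, Dzs]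
      _ = w * (a * (m - a)) * star z := by noncomm_ring
      _ = 0 := by rw [aD, mul_zero, zero_mul]
  have c4 : z * star w = 0 := by
    have h1 := congrArg star c3
    rwa [star_mul, star_star, star_zero] at h1
  have Er : (r - b) * r = r - b := by rw [sub_mul, pj_mul hr, hbr]
  have zr : star z * r = star z := by
    calc star z * r = (star z * (r - b)) * r := by rw [zsE]
      _ = star z * ((r - b) * r) := by noncomm_ring
      _ = star z := by rw [Er, zsE]
  refine ⟨w + z, ?_, ?_⟩
  · rw [star_add, add_mul, mul_add, mul_add, hw, hz, c1, c2]; abel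
  · have e : (w + z) * star (w + z) = b + z * star z := by
      rw [star_add, add_mul, mul_add, mul_add, hw', c3, c4]; abel
    rw [e, add_mul, hbr, mul_assoc, zr]

theorem dich (hInf : PInf A) (hLR : PLR A) (hCmp : PCmp A) : PDich A := by
  intro g q r hg hq hr hgi hqr hs
  obtain ⟨v, hv, hv'⟩ := hs
  obtain ⟨g1, g2, hg1, hg2, hg12, hle1, hle2, he1, he2⟩ := hInf g hg hgi
  have hle1' : g1 * g = g1 := hle1
  have hle2' : g2 * g = g2 := hle2
  have hrq := orth_symm hq hr hqr
  have hu : PJ (q + r) := pj_add hq hr hqr
  have hvg : v * g = v := v_mul hg hv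
  have hgv : g * star v = star v := mul_vs hg hv
  have hvu : star v * (q + r) = star v := vs_q hg hv hv'
  -- transport of a subprojection of g
  have tr : ∀ h : A, PJ h → h * g = h → Eqv g h →
      PJ (v * h * star v) ∧ (v * h * star v) * (q + r) = v * h * star v ∧
        Sub g (v * h * star v) := by
    intro h hh hhg he
    have hgh : g * h = h := le_symm hh hg hhg
    have hP : PJ (v * h * star v) := by
      refine ⟨?_, ?_⟩
      · show v * h * star v * (v * h * star v) = v * h * star v
        calc v * h * star v * (v * h * star v) = v * h * ((star v * v) * h) * star v := by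
              noncomm_ring
          _ = v * h * star v := by rw [hv, hgh, mul_assoc v h h, pj_mul hh]
      · show star (v * h * star v) = v * h * star v
        rw [star_mul, star_mul, star_star, pj_star hh, mul_assoc]
    refine ⟨hP, ?_, ?_⟩
    · rw [mul_assoc, hvu]
    · obtain ⟨a, ha, ha'⟩ := he
      have hga : g * a = a := by
        calc g * a = g * (a * g) := by rw [v_mul hg ha]
          _ = g * (a * (star a * a)) := by rw [ha]
          _ = (g * (a * star a)) * a := by noncomm_ring
          _ = (a * star a) * a := by rw [ha', hgh]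
          _ = a * (star a * a) := by noncomm_ring
          _ = a := by rw [ha, v_mul hg ha]
      apply sub_of_eqv hP
      refine ⟨v * a, ?_, ?_⟩
      · rw [star_mul]
        calc star a * star v * (v * a) = star a * ((star v * v) * a) := by noncomm_ring
          _ = g := by rw [hv, hga, ha]
      · rw [star_mul]
        calc v * a * (star a * star v) = v * (a * star a) * star v := by noncomm_ring
          _ = v * h * star v := by rw [ha']
  obtain ⟨hm, hmu, hgm⟩ := tr g1 hg1 hle1' he1
  obtain ⟨hn, hnu, hgn⟩ := tr g2 hg2 hle2' he2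
  set m := v * g1 * star v with hmdef
  set n := v * g2 * star v with hndef
  have hgg2 : g * g2 = g2 := le_symm hg2 hg hle2'
  have hmn : m * n = 0 := by
    calc m * n = v * (g1 * ((star v * v) * g2)) * star v := by rw [hmdef, hndef]; noncomm_ring
      _ = 0 := by rw [hv, hgg2, hg12, mul_zero, zero_mul]
  have hnm : n * m = 0 := orth_symm hm hn hmn
  have hN : PJ (q + r - m) := pj_sub hm hu hmu
  have hum : (q + r) * m = m := le_symm hm hu hmu
  have hNu : (q + r - m) * (r + q) = q + r - m := by
    rw [add_comm r q, sub_mul, pj_mul hu, hmu]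
  have hNm : (q + r - m) * m = 0 := by rw [sub_mul, hum, pj_mul hm, sub_self]
  have hmN : m * (q + r - m) = 0 := orth_symm hN hm hNm
  obtain ⟨w, a, b, ha, hb, hw, hw', ham, hbr, hDq, hEm, hmax⟩ :=
    half hLR hq hr hm hqr hmu
  obtain ⟨w', a', b', ha', hb', hw1, hw1', haN, hbq', hD'r, hE'N, hmax'⟩ :=
    half hLR hr hq hN hrq hNu
  have hD : PJ (m - a) := pj_sub ha hm ham
  have hE : PJ (r - b) := pj_sub hb hr hbr
  have hD' : PJ (q + r - m - a') := pj_sub ha' hN haN
  -- D' ≤ E
  have hD'E : (q + r - m - a') * (r - b) = q + r - m - a' := by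
    have e0 : a' * m = 0 := by
      rw [← haN, mul_assoc, hNm, mul_zero]
    have e1 : (q + r - m - a') * m = 0 := by rw [sub_mul, hNm, e0, sub_zero]
    have e2 := hmax _ e1 hD'r
    rw [mul_sub, hD'r, e2, sub_zero]
  -- D ≤ E'
  have hDE' : (m - a) * (q - b') = m - a := by
    have e0 : a * (q + r - m) = 0 := by
      rw [← ham, mul_assoc, hmN, mul_zero]
    have e1 : (m - a) * (q + r - m) = 0 := by rw [sub_mul, hmN, e0, sub_zero]
    have e2 := hmax' _ e1 hDq
    rw [mul_sub, hDq, e2, sub_zero]
  rcases hCmp (m - a) (r - b) hD hE with h | h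
  · right
    exact sub_trans' hg hm hgm (comb ha hb hm hr hw hw' ham hbr h)
  · left
    have s1 : Sub (q + r - m - a') (q - b') := by
      have s2 : Sub (q + r - m - a') (r - b) := sub_of_le hD' hD'E
      exact sub_le' (sub_trans' hD' hE s2 h) hDE'
    have s3 : Sub (q + r - m) q := comb ha' hb' hN hq hw1 hw1' haN hbq' s1
    have s4 : Sub n (q + r - m) := by
      apply sub_of_le hn
      rw [mul_sub, hnu, hnm, sub_zero]
    exact sub_trans' hg hn hgn (sub_trans' hn hN s4 s3)

theorem join (hLR : PLR A) (hDich : PDich A) : PJoin A := by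
  intro g s t hg hs ht hgi hsg htg hns hnt
  have hsg' : s * g = s := hsg
  have htg' : t * g = t := htg
  have hgs : g * s = s := le_symm hs hg hsg'
  have hgt : g * t = t := le_symm ht hg htg'
  obtain ⟨w, a, b, ha, hb, hw, hw', hxa, hbx, h1, h2⟩ := hLR ((1 - t) * s)
  have htb : t * b = 0 := by
    apply h2
    rw [← mul_assoc, mul_sub, mul_one, pj_mul ht, sub_self, zero_mul]
  have hbt : b * t = 0 := orth_symm ht hb htb
  have hgb : g * b = b := by
    have e : (1 - g) * ((1 - t) * s) = 0 := by
      calc (1 - g) * ((1 - t) * s) = (s - g * s) - (t - g * t) * s := by noncomm_ring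
        _ = 0 := by rw [hgs, hgt, sub_self, sub_self, zero_mul, sub_zero]
    have := h2 _ e
    rw [sub_mul, one_mul] at this
    exact (sub_eq_zero.mp this).symm
  have hbg : b * g = b := by
    have h3 := congrArg star hgb
    rwa [star_mul, pj_star hg, pj_star hb] at h3
  have has : a * s = a := by
    have e : (1 - t) * s * (1 - s) = 0 := by
      rw [mul_assoc, mul_sub, mul_one, pj_mul hs, sub_self, mul_zero]
    have := h1 _ e
    rw [mul_sub, mul_one] at this
    exact (sub_eq_zero.mp this).symm
  have hc : PJ (t + b) := pj_add ht hb htb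
  have hcs : (t + b) * s = s := by
    have e1 : b * s = (1 - t) * s := by
      calc b * s = b * ((1 - t) * s) + (b * t) * s := by noncomm_ring
        _ = (1 - t) * s := by rw [hbx, hbt, zero_mul, add_zero]
    rw [add_mul, e1, sub_mul, one_mul]; abel
  refine ⟨t + b, hc, ?_, ?_, ?_, ?_⟩
  · show (t + b) * g = t + b
    rw [add_mul, htg', hbg]
  · show s * (t + b) = s
    have h3 := congrArg star hcs
    rwa [star_mul, pj_star hs, pj_star hc] at h3
  · show t * (t + b) = t
    rw [mul_add, pj_mul ht, htb, add_zero]
  · intro hsub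
    rcases hDich g t b hg ht hb hgi htb hsub with h | h
    · exact hnt h
    · apply hns
      refine sub_trans' hg hb h ⟨star w, ?_, ?_⟩
      · rw [star_star, hw']
      · rw [star_star, hw, has]

end

theorem dich_ok : St_Dich.{u} := fun _ _ h1 h2 h3 => dich h1 h2 h3

theorem join_ok : St_Join.{u} := fun _ _ h1 h2 => join h1 h2

end Pool.Agent.R834.CL
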